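import Pool.Agent.U72.CMO.Bas
import Pool.Agent.W683.MO.SP1

/-!
# Project CM, package A: control primes of the first kind `≤ 2^(3i/5)`, with multiplicity

The same proof as `Pool.Agent.W683.MO.A_bound`, with the prime factors counted with multiplicity.
-/

set_option autoImplicit false

namespace Pool.Agent.U165.CMO

open Finset Filter Topology
open scoped Classical
open Pool.Agent.W76.MO Pool.Agent.W683.MO Pool.Agent.U72.CMO

theorem t_A : T_AC := by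
  intro E hG
  have hδ := E.hδ
  have hδ1 : E.δ ≤ 1 := by have := E.hδ'; have := E.hτ'; linarith
  obtain ⟨J0, hJ0, hJ⟩ := hG
  obtain ⟨J1, hJ1⟩ := large (E.δ / 50) 1 50 (by linarith)
  refine ⟨J0 + J1 + 1003, by omega, fun j hj i hij n hn1 hn => ?_⟩
  obtain ⟨-, -, -, g4, -, g6, -, -, -⟩ := hJ j (by omega)
  set c : ℕ → ℕ := fun p => n.primeFactorsList.count p with hc0
  set G : Finset ℕ := (n.primeFactors.filter
    (fun p : ℕ => (p : ℝ) ≤ (2 : ℝ) ^ (3 / 5 * (i : ℝ)))).filter (fun p => E.U j p) with hG0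
  set F : Finset (Σ _ : ℕ, ℕ) := G.sigma (fun p => range (c p)) with hF
  have e1 : cmv (fun p => if (p : ℝ) ≤ (2 : ℝ) ^ (3 / 5 * (i : ℝ)) then 1 + 2 * (p * E.gu j p) else 1) n
      = ∏ x ∈ F, (1 + 2 * ((x.1 : ℝ) * E.gu j x.1)) := by
    rw [cmv_eq_prod, hF, prod_sigma]
    have h1 : ∀ p : ℕ, ∏ s ∈ range (c p), (1 + 2 * (((⟨p, s⟩ : Σ _ : ℕ, ℕ).1 : ℝ) *
        E.gu j (⟨p, s⟩ : Σ _ : ℕ, ℕ).1)) = (1 + 2 * ((p : ℝ) * E.gu j p)) ^ (c p) := by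
      intro p
      simp
    rw [prod_congr rfl (fun p _ => h1 p), hG0]
    rw [prod_filter_of_ne, prod_filter]
    · apply prod_congr rfl
      intro p _
      by_cases hp : (p : ℝ) ≤ (2 : ℝ) ^ (3 / 5 * (i : ℝ))
      · simp [hp, hc0]
      · simp [hp]
    · intro p _ hne
      apply g4
      intro h0
      apply hne
      rw [h0]; simp
  rw [e1]
  have hFG : ∀ x ∈ F, x.1 ∈ G := fun x hx => (mem_sigma.1 hx).1
  have hFU : ∀ x ∈ F, E.U j x.1 := fun x hx => (mem_filter.1 (hFG x hx)).2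
  have hFp : ∀ x ∈ F, (x.1 : ℝ) ≤ (2 : ℝ) ^ (3 / 5 * (i : ℝ)) :=
    fun x hx => (mem_filter.1 (mem_filter.1 (hFG x hx)).1).2
  have hsc : ∀ x ∈ F, 2 ^ Env.sc x.1 < x.1 := by
    intro x hx
    exact (sc_spec (E.u_prime x.1 (hFU x hx).1).two_le).1
  have ha2 : ∀ x ∈ F, 2 ≤ Env.sc x.1 := by
    intro x hx
    have := (g6 x.1 (hFU x hx)).1
    omega
  have ha6 : ∀ x ∈ F, 10 * Env.sc x.1 ≤ 6 * i := by
    intro x hx
    have h1 : (2 : ℝ) ^ ((Env.sc x.1 : ℕ) : ℝ) < (2 : ℝ) ^ (3 / 5 * (i : ℝ)) := by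
      rw [Real.rpow_natCast]
      refine lt_of_lt_of_le ?_ (hFp x hx)
      exact_mod_cast hsc x hx
    have h2 := (Real.rpow_lt_rpow_left_iff (by norm_num)).1 h1
    have h3 : (10 * Env.sc x.1 : ℝ) ≤ 6 * i := by linarith
    exact_mod_cast h3
  have hSum : ∑ x ∈ F, Env.sc x.1 ≤ i + 1 := by
    have h1 : ∏ x ∈ F, 2 ^ Env.sc x.1 ≤ ∏ x ∈ F, x.1 :=
      prod_le_prod' (fun x hx => (hsc x hx).le)
    have h2 : ∏ x ∈ F, x.1 ∣ n := by
      have hn0 : n ≠ 0 := by omega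
      have h21 : ∏ x ∈ F, x.1 = ∏ p ∈ G, p ^ (c p) := by
        rw [hF, prod_sigma]
        apply prod_congr rfl
        intro p _
        simp
      have h22 : ∏ p ∈ n.primeFactors, p ^ (c p) = n := by
        have := Finset.prod_list_count n.primeFactorsList
        rw [Nat.prod_primeFactorsList hn0] at this
        exact this.symm
      have hGs : G ⊆ n.primeFactors := fun p hp => (mem_filter.1 (mem_filter.1 hp).1).1
      have h23 : ∏ p ∈ G, p ^ (c p) ∣ ∏ p ∈ n.primeFactors, p ^ (c p) :=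
        prod_dvd_prod_of_subset _ _ _ hGs
      rw [h22] at h23
      rw [h21]
      exact h23
    have h3 := Nat.le_of_dvd (by omega) h2
    rw [prod_pow_eq_pow_sum] at h1
    have h4 : 2 ^ (∑ x ∈ F, Env.sc x.1) ≤ 2 ^ (i + 1) := by omega
    exact (Nat.pow_le_pow_iff_right (by norm_num)).1 h4
  have hprod : ∏ x ∈ F, (1 + 2 * ((x.1 : ℝ) * E.gu j x.1)) ≤
      (2 : ℝ) ^ (E.δ / 2 * ((∑ x ∈ F, Env.sc x.1 : ℕ) : ℝ)) /
        ((∏ x ∈ F, Env.sc x.1 : ℕ) : ℝ) ^ 35 := by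
    have h1 : ∏ x ∈ F, (1 + 2 * ((x.1 : ℝ) * E.gu j x.1)) ≤
        ∏ x ∈ F, ((2 : ℝ) ^ (E.δ / 2 * Env.sc x.1) / (Env.sc x.1 : ℝ) ^ 35) := by
      apply Finset.prod_le_prod
      · intro x _
        have := gu_nonneg E j x.1
        positivity
      · intro x hx
        exact (g6 x.1 (hFU x hx)).2
    refine h1.trans (le_of_eq ?_)
    rw [prod_div_distrib]
    congr 1
    · rw [← Real.rpow_sum_of_pos (by norm_num)]
      congr 1
      push_cast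
      rw [mul_sum]
    · push_cast
      rw [prod_pow]
  refine hprod.trans ?_
  have hiR : (1000 : ℝ) ≤ i := by exact_mod_cast (by omega : 1000 ≤ i)
  have hPpos : 1 ≤ ∏ x ∈ F, Env.sc x.1 := by
    apply Nat.one_le_iff_ne_zero.2
    rw [prod_ne_zero_iff]
    intro x hx
    have := ha2 x hx
    omega
  have hPR : (1 : ℝ) ≤ ((∏ x ∈ F, Env.sc x.1 : ℕ) : ℝ) := by exact_mod_cast hPpos
  by_cases hc : 25 * ∑ x ∈ F, Env.sc x.1 ≤ 24 * i
  · have hbig := hJ1 i (by omega)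
    rw [one_mul] at hbig
    have hc' : (25 : ℝ) * ((∑ x ∈ F, Env.sc x.1 : ℕ) : ℝ) ≤ 24 * i := by exact_mod_cast hc
    rw [div_le_div_iff₀ (by positivity) (by positivity)]
    have h1 : (2 : ℝ) ^ (E.δ / 2 * ((∑ x ∈ F, Env.sc x.1 : ℕ) : ℝ)) * (i : ℝ) ^ 50 ≤
        (2 : ℝ) ^ (E.δ / 2 * ((∑ x ∈ F, Env.sc x.1 : ℕ) : ℝ)) * (2 : ℝ) ^ (E.δ / 50 * i) :=
      mul_le_mul_of_nonneg_left hbig (by positivity)
    have h2 : (2 : ℝ) ^ (E.δ / 2 * ((∑ x ∈ F, Env.sc x.1 : ℕ) : ℝ)) * (2 : ℝ) ^ (E.δ / 50 * i) ≤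
        (2 : ℝ) ^ (E.δ / 2 * i) := by
      rw [← Real.rpow_add (by norm_num)]
      apply Real.rpow_le_rpow_of_exponent_le (by norm_num)
      nlinarith
    have h3 : (1 : ℝ) ≤ ((∏ x ∈ F, Env.sc x.1 : ℕ) : ℝ) ^ 35 := one_le_pow₀ hPR
    have h4 : (0 : ℝ) < (2 : ℝ) ^ (E.δ / 2 * i) := by positivity
    nlinarith
  · push Not at hc
    have h1 := prod_large F (fun x => Env.sc x.1) i (by omega) ha2 ha6 hc
    have h1R : (i : ℝ) ^ 2 ≤ 10 * ((∏ x ∈ F, Env.sc x.1 : ℕ) : ℝ) := by exact_mod_cast h1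
    have h2 : ((i : ℝ) ^ 2) ^ 35 ≤ (10 * ((∏ x ∈ F, Env.sc x.1 : ℕ) : ℝ)) ^ 35 :=
      pow_le_pow_left₀ (by positivity) h1R 35
    have h3 : (1000 : ℝ) ^ 20 ≤ (i : ℝ) ^ 20 := pow_le_pow_left₀ (by norm_num) hiR 20
    have h4 : 2 * (i : ℝ) ^ 50 ≤ ((∏ x ∈ F, Env.sc x.1 : ℕ) : ℝ) ^ 35 := by
      have e2 : (10 * ((∏ x ∈ F, Env.sc x.1 : ℕ) : ℝ)) ^ 35 =
          10 ^ 35 * ((∏ x ∈ F, Env.sc x.1 : ℕ) : ℝ) ^ 35 := by rw [mul_pow]
      have e3 : ((i : ℝ) ^ 2) ^ 35 = (i : ℝ) ^ 20 * (i : ℝ) ^ 50 := by ring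
      rw [e2, e3] at h2
      have e4 : (1000 : ℝ) ^ 20 * (i : ℝ) ^ 50 ≤ (i : ℝ) ^ 20 * (i : ℝ) ^ 50 :=
        mul_le_mul_of_nonneg_right h3 (by positivity)
      have e5 : (10 : ℝ) ^ 35 * (2 * (i : ℝ) ^ 50) ≤ (1000 : ℝ) ^ 20 * (i : ℝ) ^ 50 := by
        have : (0 : ℝ) ≤ (i : ℝ) ^ 50 := by positivity
        nlinarith
      have e6 : (10 : ℝ) ^ 35 * (2 * (i : ℝ) ^ 50) ≤
          10 ^ 35 * ((∏ x ∈ F, Env.sc x.1 : ℕ) : ℝ) ^ 35 := by linarith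
      exact le_of_mul_le_mul_left e6 (by positivity)
    rw [div_le_div_iff₀ (by positivity) (by positivity)]
    have h5 : (2 : ℝ) ^ (E.δ / 2 * ((∑ x ∈ F, Env.sc x.1 : ℕ) : ℝ)) ≤
        2 * (2 : ℝ) ^ (E.δ / 2 * i) := by
      have e1 : ((∑ x ∈ F, Env.sc x.1 : ℕ) : ℝ) ≤ i + 1 := by exact_mod_cast hSum
      calc (2 : ℝ) ^ (E.δ / 2 * ((∑ x ∈ F, Env.sc x.1 : ℕ) : ℝ)) ≤
          (2 : ℝ) ^ (1 + E.δ / 2 * i) := by
            apply Real.rpow_le_rpow_of_exponent_le (by norm_num)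
            nlinarith
        _ = _ := by rw [Real.rpow_add (by norm_num), Real.rpow_one]
    calc (2 : ℝ) ^ (E.δ / 2 * ((∑ x ∈ F, Env.sc x.1 : ℕ) : ℝ)) * (i : ℝ) ^ 50 ≤
        (2 * (2 : ℝ) ^ (E.δ / 2 * i)) * (i : ℝ) ^ 50 :=
          mul_le_mul_of_nonneg_right h5 (by positivity)
      _ = (2 : ℝ) ^ (E.δ / 2 * i) * (2 * (i : ℝ) ^ 50) := by ring
      _ ≤ _ := mul_le_mul_of_nonneg_left h4 (by positivity)

end Pool.Agent.U165.CMO
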